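import Pool.Agent.R313.SH.Dense

set_option autoImplicit false

/-! Test functions of controlled growth. -/

namespace Pool.Agent.R313.SH

open MeasureTheory Filter Topology ProbabilityTheory BoundedContinuousFunction

/-- test functions dominated by a function whose integrals converge -/
theorem unb2 {E : Type*} [TopologicalSpace E] [MeasurableSpace E] [BorelSpace E] {p : ℝ → ℝ → ℝ} {Y : ℝ → ℝ → E}
    {ms : ℝ → Measure ℝ} {ρ : Measure E} [IsProbabilityMeasure ρ] {c : ℝ}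
    (hp : ∀ᶠ T in atTop, Measurable (p T) ∧ ∀ t, 0 ≤ p T t) (hY : ∀ᶠ T in atTop, Measurable (Y T))
    {g : E → ℝ} (hg : Continuous g) (hg1 : ∀ y, 1 ≤ g y)
    (hi : ∀ᶠ T in atTop, Integrable (fun t => p T t * g (Y T t)) (ms T)) (hρ : Integrable g ρ)
    (hm : Tendsto (fun T => ∫ t, p T t * g (Y T t) ∂(ms T)) atTop (𝓝 (c * ∫ y, g y ∂ρ)))
    (hF : ∀ F : BoundedContinuousFunction E ℝ, Tendsto (fun T => ∫ t, p T t * F (Y T t) ∂(ms T)) atTop (𝓝 (c * ∫ y, F y ∂ρ)))
    {F : E → ℝ} (hFc : Continuous F) {A : ℝ} (hFA : ∀ y, |F y| ≤ A * g y) :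
    Tendsto (fun T => ∫ t, p T t * F (Y T t) ∂(ms T)) atTop (𝓝 (c * ∫ y, F y ∂ρ)) := by
  have hg0 : ∀ y, 0 < g y := fun y => by have := hg1 y; linarith
  obtain ⟨B, hB⟩ : ∃ B : ℝ, B = max A 0 := ⟨_, rfl⟩
  have hB0 : 0 ≤ B := by rw [hB]; exact le_max_right _ _
  have hFB : ∀ y, |F y| ≤ B * g y := fun y => (hFA y).trans (mul_le_mul_of_nonneg_right (by rw [hB]; exact le_max_left _ _) (hg0 y).le)
  obtain ⟨G, hG⟩ : ∃ G : E → ℝ, ∀ y, G y = F y / g y := ⟨_, fun _ => rfl⟩
  have hGc : Continuous G := by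
    have : G = fun y => F y / g y := funext hG
    rw [this]
    exact hFc.div hg fun y => (hg0 y).ne'
  have hGB : ∀ y, |G y| ≤ B := fun y => by
    rw [hG, abs_div, abs_of_pos (hg0 y), div_le_iff₀ (hg0 y)]
    exact hFB y
  have hFG : ∀ y, F y = G y * g y := fun y => by rw [hG, div_mul_cancel₀ _ (hg0 y).ne']
  obtain ⟨gR, hgR⟩ : ∃ gR : ℕ → BoundedContinuousFunction E ℝ, ∀ k y, gR k y = min (g y) k :=
    ⟨fun k => BoundedContinuousFunction.ofNormedAddCommGroup (fun y => min (g y) k) (hg.min continuous_const) k (fun y => by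
      rw [Real.norm_eq_abs, abs_of_nonneg (le_min (hg0 y).le (Nat.cast_nonneg k))]
      exact min_le_right _ _), fun k y => rfl⟩
  obtain ⟨FR, hFR⟩ : ∃ FR : ℕ → BoundedContinuousFunction E ℝ, ∀ k y, FR k y = G y * min (g y) k :=
    ⟨fun k => BoundedContinuousFunction.ofNormedAddCommGroup (fun y => G y * min (g y) k) (hGc.mul (hg.min continuous_const)) (B * k)
      (fun y => by
        rw [norm_mul, Real.norm_eq_abs, Real.norm_eq_abs, abs_of_nonneg (le_min (hg0 y).le (Nat.cast_nonneg k))]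
        exact mul_le_mul (hGB y) (min_le_right _ _) (le_min (hg0 y).le (Nat.cast_nonneg k)) hB0), fun k y => rfl⟩
  have hle : ∀ k y, gR k y ≤ g y := fun k y => by rw [hgR]; exact min_le_left _ _
  have hge : ∀ k y, 0 ≤ gR k y := fun k y => by rw [hgR]; exact le_min (hg0 y).le (Nat.cast_nonneg k)
  have hdiff : ∀ k y, |F y - FR k y| ≤ B * (g y - gR k y) := fun k y => by
    rw [hFG, hFR, ← mul_sub, abs_mul, ← hgR k y, abs_of_nonneg (sub_nonneg.mpr (hle k y))]
    exact mul_le_mul_of_nonneg_right (hGB y) (sub_nonneg.mpr (hle k y))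
  have hFρ : Integrable F ρ := (hρ.const_mul B).mono' hFc.aestronglyMeasurable (Eventually.of_forall fun y => by
    rw [Real.norm_eq_abs]; exact hFB y)
  have herrρ : ∀ k, |∫ y, F y ∂ρ - ∫ y, FR k y ∂ρ| ≤ B * (∫ y, g y ∂ρ - ∫ y, gR k y ∂ρ) := by
    intro k
    have i2 : Integrable (fun y => gR k y) ρ := (gR k).integrable _
    have i3 : Integrable (fun y => FR k y) ρ := (FR k).integrable _
    rw [← integral_sub hFρ i3, ← integral_sub hρ i2, ← integral_const_mul]
    exact (abs_integral_le_integral_abs).trans (integral_mono (hFρ.sub i3).abs ((hρ.sub i2).const_mul _) fun y => hdiff k y)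
  have herrT : ∀ᶠ T in atTop, ∀ k, |∫ t, p T t * F (Y T t) ∂(ms T) - ∫ t, p T t * FR k (Y T t) ∂(ms T)| ≤
      B * (∫ t, p T t * g (Y T t) ∂(ms T) - ∫ t, p T t * gR k (Y T t) ∂(ms T)) := by
    filter_upwards [hp, hY, hi] with T h1 h2 h3 k
    have i1 : Integrable (fun t => p T t * F (Y T t)) (ms T) :=
      (h3.const_mul B).mono' (h1.1.mul (hFc.measurable.comp h2)).aestronglyMeasurable (Eventually.of_forall fun t => by
        show ‖p T t * F (Y T t)‖ ≤ B * (p T t * g (Y T t))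
        rw [norm_mul, Real.norm_of_nonneg (h1.2 t), Real.norm_eq_abs]
        have := mul_le_mul_of_nonneg_left (hFB (Y T t)) (h1.2 t)
        linarith)
    have i2 : Integrable (fun t => p T t * gR k (Y T t)) (ms T) :=
      h3.mono' (h1.1.mul ((gR k).continuous.measurable.comp h2)).aestronglyMeasurable (Eventually.of_forall fun t => by
        show ‖p T t * gR k (Y T t)‖ ≤ p T t * g (Y T t)
        rw [norm_mul, Real.norm_of_nonneg (h1.2 t), Real.norm_of_nonneg (hge k _)]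
        exact mul_le_mul_of_nonneg_left (hle k _) (h1.2 t))
    have i3 : Integrable (fun t => p T t * FR k (Y T t)) (ms T) :=
      (h3.const_mul B).mono' (h1.1.mul ((FR k).continuous.measurable.comp h2)).aestronglyMeasurable (Eventually.of_forall fun t => by
        show ‖p T t * FR k (Y T t)‖ ≤ B * (p T t * g (Y T t))
        rw [norm_mul, Real.norm_of_nonneg (h1.2 t), Real.norm_eq_abs, hFR, abs_mul, ← hgR k, abs_of_nonneg (hge k _)]
        have h5 : |G (Y T t)| * gR k (Y T t) ≤ B * g (Y T t) := mul_le_mul (hGB _) (hle k _) (hge k _) hB0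
        have := mul_le_mul_of_nonneg_left h5 (h1.2 t)
        linarith)
    rw [← integral_sub i1 i3, ← integral_sub h3 i2, ← integral_const_mul]
    refine (abs_integral_le_integral_abs).trans (integral_mono (i1.sub i3).abs ((h3.sub i2).const_mul _) fun t => ?_)
    show |p T t * F (Y T t) - p T t * FR k (Y T t)| ≤ B * (p T t * g (Y T t) - p T t * gR k (Y T t))
    rw [← mul_sub, ← mul_sub, abs_mul, abs_of_nonneg (h1.2 t)]
    have := mul_le_mul_of_nonneg_left (hdiff k (Y T t)) (h1.2 t)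
    linarith
  have hlim : Tendsto (fun k : ℕ => ∫ y, gR k y ∂ρ) atTop (𝓝 (∫ y, g y ∂ρ)) := by
    refine tendsto_integral_of_dominated_convergence (fun y => g y) (fun k => (gR k).continuous.aestronglyMeasurable) hρ
      (fun k => Eventually.of_forall fun y => ?_) (Eventually.of_forall fun y => ?_)
    · rw [Real.norm_eq_abs, abs_of_nonneg (hge k y)]
      exact hle k y
    · obtain ⟨K, hK⟩ := exists_nat_ge (g y)
      refine tendsto_const_nhds.congr' ?_
      filter_upwards [eventually_ge_atTop K] with k hk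
      rw [hgR, min_eq_left]
      exact hK.trans (by exact_mod_cast hk)
  rw [Metric.tendsto_nhds]
  intro ε hε
  obtain ⟨k, hk⟩ : ∃ k : ℕ, (B * (|c| + 1)) * (∫ y, g y ∂ρ - ∫ y, gR k y ∂ρ) < ε / 4 := by
    have h1 := ((tendsto_const_nhds (x := ∫ y, g y ∂ρ)).sub hlim).const_mul (B * (|c| + 1))
    rw [sub_self, mul_zero] at h1
    exact (h1.eventually (gt_mem_nhds (by positivity))).exists
  obtain ⟨d, hd⟩ : ∃ d : ℝ, d = ∫ y, g y ∂ρ - ∫ y, gR k y ∂ρ := ⟨_, rfl⟩
  have hd0 : 0 ≤ d := by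
    rw [hd, sub_nonneg]
    exact integral_mono ((gR k).integrable _) hρ fun y => hle k y
  rw [← hd] at hk
  have hBd : B * d ≤ (B * (|c| + 1)) * d := by
    have h1 : B * 1 ≤ B * (|c| + 1) := mul_le_mul_of_nonneg_left (by have := abs_nonneg c; linarith) hB0
    rw [mul_one] at h1
    exact mul_le_mul_of_nonneg_right h1 hd0
  have h2 := (hm.sub (hF (gR k))).const_mul B
  have hcd : B * (c * ∫ y, g y ∂ρ - c * ∫ y, gR k y ∂ρ) < ε / 4 := by
    rw [← mul_sub, ← hd]
    have h1 : c ≤ |c| + 1 := by have := le_abs_self c; linarith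
    have h3 : B * (c * d) ≤ B * ((|c| + 1) * d) := mul_le_mul_of_nonneg_left (mul_le_mul_of_nonneg_right h1 hd0) hB0
    linarith
  have h3 := h2.eventually (gt_mem_nhds hcd)
  have h4 := (Metric.tendsto_nhds.mp (hF (FR k))) (ε / 4) (by positivity)
  filter_upwards [herrT, h3, h4] with T a1 a2 a3
  rw [Real.dist_eq] at a3 ⊢
  have b1 := a1 k
  have b2 := herrρ k
  rw [← hd] at b2
  have b2' : |c * ∫ y, F y ∂ρ - c * ∫ y, FR k y ∂ρ| ≤ (B * (|c| + 1)) * d := by
    rw [← mul_sub, abs_mul]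
    have h5 := mul_le_mul_of_nonneg_left b2 (abs_nonneg c)
    have h6 : |c| * (B * d) ≤ (B * (|c| + 1)) * d := by nlinarith [mul_nonneg hB0 hd0]
    linarith
  have b3 : ∫ t, p T t * F (Y T t) ∂(ms T) - c * ∫ y, F y ∂ρ =
      (∫ t, p T t * F (Y T t) ∂(ms T) - ∫ t, p T t * FR k (Y T t) ∂(ms T)) +
      (∫ t, p T t * FR k (Y T t) ∂(ms T) - c * ∫ y, FR k y ∂ρ) - (c * ∫ y, F y ∂ρ - c * ∫ y, FR k y ∂ρ) := by ring
  rw [b3]
  have c1 := abs_sub ((∫ t, p T t * F (Y T t) ∂(ms T) - ∫ t, p T t * FR k (Y T t) ∂(ms T)) +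
      (∫ t, p T t * FR k (Y T t) ∂(ms T) - c * ∫ y, FR k y ∂ρ)) (c * ∫ y, F y ∂ρ - c * ∫ y, FR k y ∂ρ)
  have c2 := abs_add_le (∫ t, p T t * F (Y T t) ∂(ms T) - ∫ t, p T t * FR k (Y T t) ∂(ms T))
      (∫ t, p T t * FR k (Y T t) ∂(ms T) - c * ∫ y, FR k y ∂ρ)
  linarith

end Pool.Agent.R313.SH
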