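import Pool.Agent.R313.SH.Unb
import Pool.Agent.Y753.SHR.R13

set_option autoImplicit false

/-! The landscape under the moment measures, for test functions of the largest possible growth. -/

namespace Pool.Agent.R313.SH

open Finset Filter MeasureTheory Topology ProbabilityTheory
open Pool.Agent.Y753.SHR
open Pool.Agent.Y753.SHL (lf qf Nor Lap CL mL Yl Lg land_core za_ae CL_symm Lg_zero)
open Pool.Agent.H306R2 (aF aF_pos)

/-- the weight of growth -/
noncomputable def gw {n : ℕ} (β : ℝ) (y : Fin n → ℝ) : ℝ := 1 + ∑ j, Real.exp (β * y j)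

lemma gw_cont {n : ℕ} (β : ℝ) : Continuous (gw β : (Fin n → ℝ) → ℝ) := by
  unfold gw
  fun_prop

lemma gw_one {n : ℕ} (β : ℝ) (y : Fin n → ℝ) : 1 ≤ gw β y := by
  unfold gw
  have : 0 ≤ ∑ j, Real.exp (β * y j) := sum_nonneg fun j _ => (Real.exp_pos _).le
  linarith

lemma lf_single {n : ℕ} (j : Fin n) (u : ℝ) (y : Fin n → ℝ) : lf (Pi.single j u) y = u * y j := by
  unfold lf
  rw [sum_eq_single j]
  · simp
  · intro i _ hi
    simp [Pi.single_eq_of_ne hi]
  · intro h
    exact absurd (mem_univ j) h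

lemma qf_single {n : ℕ} (C : Fin n → Fin n → ℝ) (j : Fin n) (u : ℝ) : qf C (Pi.single j u) = u ^ 2 * C j j := by
  unfold qf
  rw [sum_eq_single j]
  · rw [sum_eq_single j]
    · simp only [Pi.single_eq_same]
      ring
    · intro i _ hi
      simp [Pi.single_eq_of_ne hi]
    · intro h
      exact absurd (mem_univ j) h
  · intro i _ hi
    simp [Pi.single_eq_of_ne hi]
  · intro h
    exact absurd (mem_univ j) h

lemma CL_diag {n : ℕ} (a : Fin n → ℝ) (j : Fin n) : CL a j j = Lg (a j) / 2 := by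
  unfold CL
  rw [sub_self, Lg_zero]
  ring

lemma exp_one {n : ℕ} {β : ℝ} {a : Fin n → ℝ} {ρ : ProbabilityMeasure (Fin n → ℝ)} (h : Nor (mL β a) (CL a) ρ) (j : Fin n) :
    Integrable (fun y : Fin n → ℝ => Real.exp (β * y j)) (ρ : Measure (Fin n → ℝ)) ∧
      ∫ y, Real.exp (β * y j) ∂(ρ : Measure (Fin n → ℝ)) = 1 := by
  obtain ⟨h1, h2⟩ := nor_exp h (Pi.single j β)
  simp_rw [lf_single] at h1 h2
  refine ⟨h1, ?_⟩
  rw [h2, qf_single, CL_diag]
  unfold mL
  rw [Real.exp_eq_one_iff]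
  ring

/-- the limit law of the landscape, with growth -/
theorem land_grow {δ : ℝ → ℝ} (hδ : Tendsto δ atTop (𝓝 0))
    (hδL : Tendsto (fun T : ℝ => δ T * Real.log T) atTop atTop) {D : ℝ → Set ℝ} (hD : ∀ T, MeasurableSet (D T) ∧ D T ⊆ Set.Icc 0 T)
    {β : ℝ} (hβ : 0 < β) {n : ℕ} (a : Fin n → ℝ)
    (Hm : ∀ κ : Fin (n + 1) → ℝ, (∀ j, ∃ r : ℚ, κ j = β / 2 * r) → (∀ j, 0 < κ j) → ∑ j, κ j = β / 2 →
      Tendsto (fun T : ℝ => (2 * δ T) ^ ((β / 2) ^ 2) / T *
          ∫ t in D T, ∏ j, za (δ T) ((Fin.cons 0 a : Fin (n + 1) → ℝ) j) t ^ (2 * κ j)) atTop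
        (𝓝 (aF (β / 2) * ∏ j, ∏ i, (1 + (((Fin.cons 0 a : Fin (n + 1) → ℝ) j - (Fin.cons 0 a : Fin (n + 1) → ℝ) i) / 2) ^ 2) ^
          (-(κ j * κ i / 2)))))
    (H0 : Tendsto (fun T : ℝ => (2 * δ T) ^ ((β / 2) ^ 2) / T * ∫ t in D T, za (δ T) 0 t ^ β) atTop (𝓝 (aF (β / 2))))
    (Ha : ∀ j, Tendsto (fun T : ℝ => (2 * δ T) ^ ((β / 2) ^ 2) / T * ∫ t in D T, za (δ T) (a j) t ^ β) atTop (𝓝 (aF (β / 2)))) :
    ∃ ρ : ProbabilityMeasure (Fin n → ℝ), Nor (mL β a) (CL a) ρ ∧ ∀ (F : (Fin n → ℝ) → ℝ) (A : ℝ), Continuous F →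
      (∀ y, |F y| ≤ A * (1 + ∑ j, Real.exp (β * y j))) →
      Tendsto (fun T : ℝ => (2 * δ T) ^ ((β / 2) ^ 2) / T * ∫ t in D T, za (δ T) 0 t ^ β * F (Yl (δ T) a t)) atTop
        (𝓝 (aF (β / 2) * ∫ y, F y ∂(ρ : Measure (Fin n → ℝ)))) := by
  obtain ⟨ρ, hρ, hF⟩ := land_core dense land hδ hδL hD hβ a Hm H0
  refine ⟨ρ, hρ, fun F A hFc hFA => ?_⟩
  have hpos : ∀ᶠ T in atTop, 0 < δ T := by
    filter_upwards [hδL.eventually_gt_atTop 0, eventually_gt_atTop 1] with T hT hT1
    exact (pos_iff_pos_of_mul_pos hT).mpr (Real.log_pos hT1)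
  have hlt : ∀ᶠ T in atTop, δ T < 1 / 2 := hδ.eventually (gt_mem_nhds (by norm_num))
  obtain ⟨w, hw⟩ : ∃ w : ℝ → ℝ, ∀ T, w T = (2 * δ T) ^ ((β / 2) ^ 2) / T := ⟨_, fun _ => rfl⟩
  simp_rw [← hw] at H0 Ha hF ⊢
  have hw0 : ∀ᶠ T in atTop, 0 ≤ w T := by
    filter_upwards [hpos, eventually_gt_atTop 0] with T h1 h2
    rw [hw]; positivity
  have hcont : ∀ {T : ℝ}, δ T < 1 / 2 → ∀ x : ℝ, Continuous fun t => za (δ T) x t ^ β := fun hT x =>
    (za_cont hT x).rpow_const fun _ => Or.inr hβ.le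
  have hY : ∀ᶠ T : ℝ in atTop, Measurable (Yl (δ T) a) := by
    filter_upwards [hlt] with T hT
    refine measurable_pi_lambda _ fun j => ?_
    exact (Real.measurable_log.comp (za_cont hT (a j)).measurable).sub (Real.measurable_log.comp (za_cont hT 0).measurable)
  have hI : ∀ {T : ℝ}, δ T < 1 / 2 → ∀ x : ℝ, IntegrableOn (fun t => za (δ T) x t ^ β) (D T) := fun hT x =>
    ((hcont hT x).continuousOn.integrableOn_compact isCompact_Icc).mono_set (hD _).2
  -- the pointwise identity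
  have hid : ∀ T : ℝ, (fun t => w T * za (δ T) 0 t ^ β * gw β (Yl (δ T) a t)) =ᵐ[volume.restrict (D T)]
      fun t => w T * za (δ T) 0 t ^ β + ∑ j, w T * za (δ T) (a j) t ^ β := by
    intro T
    refine ae_restrict_of_ae ?_
    filter_upwards [za_ae (δ T) 0, ae_all_iff.mpr fun j => za_ae (δ T) (a j)] with t h1 h2
    unfold gw
    rw [mul_add, mul_one, mul_sum]
    congr 1
    refine sum_congr rfl fun j _ => ?_
    rw [mul_assoc]
    congr 1
    unfold Yl
    rw [Real.rpow_def_of_pos h1, Real.rpow_def_of_pos (h2 j), ← Real.exp_add]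
    congr 1
    ring
  have hgi : ∀ᶠ T in atTop, Integrable (fun t => w T * za (δ T) 0 t ^ β * gw β (Yl (δ T) a t)) (volume.restrict (D T)) := by
    filter_upwards [hlt] with T hT
    exact (((hI hT 0).const_mul _).add (integrable_finsetSum _ fun j _ => (hI hT (a j)).const_mul _)).congr (hid T).symm
  have hρi : Integrable (gw β) (ρ : Measure (Fin n → ℝ)) := by
    unfold gw
    exact (integrable_const _).add (integrable_finsetSum _ fun j _ => (exp_one hρ j).1)
  have hρv : ∫ y, gw β y ∂(ρ : Measure (Fin n → ℝ)) = 1 + n := by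
    unfold gw
    rw [integral_add (integrable_const _) (integrable_finsetSum _ fun j _ => (exp_one hρ j).1),
      integral_finsetSum _ fun j _ => (exp_one hρ j).1]
    simp_rw [(exp_one hρ _).2]
    simp
  have hm : Tendsto (fun T => ∫ t, w T * za (δ T) 0 t ^ β * gw β (Yl (δ T) a t) ∂(volume.restrict (D T))) atTop
      (𝓝 (aF (β / 2) * ∫ y, gw β y ∂(ρ : Measure (Fin n → ℝ)))) := by
    rw [hρv]
    have h1 := H0.add (tendsto_finsetSum (univ : Finset (Fin n)) fun j _ => Ha j)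
    have e1 : aF (β / 2) * (1 + (n : ℝ)) = aF (β / 2) + ∑ _j : Fin n, aF (β / 2) := by
      rw [sum_const, card_univ, Fintype.card_fin, nsmul_eq_mul]
      ring
    rw [e1]
    refine h1.congr' ?_
    filter_upwards [hlt] with T hT
    rw [integral_congr_ae (hid T), integral_add ((hI hT 0).const_mul _) (integrable_finsetSum _ fun j _ => (hI hT (a j)).const_mul _),
      integral_finsetSum _ fun j _ => (hI hT (a j)).const_mul _]
    simp_rw [integral_const_mul]
  have main := unb2 (p := fun T t => w T * za (δ T) 0 t ^ β) (Y := fun T t => Yl (δ T) a t) (ms := fun T => volume.restrict (D T))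
    (ρ := (ρ : Measure (Fin n → ℝ))) (c := aF (β / 2)) (g := gw β) (by
      filter_upwards [hlt, hw0] with T hT h0
      exact ⟨(hcont hT 0).measurable.const_mul _, fun t => mul_nonneg h0 (Real.rpow_nonneg (za_nonneg _ _ _) _)⟩) hY
    (gw_cont β) (gw_one β) hgi hρi hm (fun G => by
      refine (hF G).congr fun T => ?_
      rw [← integral_const_mul]
      refine integral_congr_ae (Eventually.of_forall fun t => ?_)
      simp only
      ring) hFc (A := A) hFA
  refine main.congr fun T => ?_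
  rw [← integral_const_mul]
  refine integral_congr_ae (Eventually.of_forall fun t => ?_)
  simp only
  ring

end Pool.Agent.R313.SH
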