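import Pool.Agent.R313.SH.Curt
import Pool.Agent.Y753.SHR.Stm3

set_option autoImplicit false

/-! Convergence of Laplace transforms in a ball of `ℝ^n` to the one of a normal law. -/

namespace Pool.Agent.R313.SH

open MeasureTheory Filter Topology ProbabilityTheory BoundedContinuousFunction
open Pool.Agent.Y753.SHL

variable {n : ℕ}

lemma lf_cont (c : Fin n → ℝ) : Continuous fun y : Fin n → ℝ => lf c y := by
  unfold lf
  fun_prop

lemma lf_smul (u : ℝ) (c y : Fin n → ℝ) : lf (fun j => u * c j) y = u * lf c y := by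
  unfold lf
  rw [Finset.mul_sum]
  exact Finset.sum_congr rfl fun j _ => by ring

lemma lf_add (c d y : Fin n → ℝ) : lf (fun j => c j + d j) y = lf c y + lf d y := by
  unfold lf
  rw [← Finset.sum_add_distrib]
  exact Finset.sum_congr rfl fun j _ => by ring

lemma qf_smul (C : Fin n → Fin n → ℝ) (u : ℝ) (c : Fin n → ℝ) : qf C (fun j => u * c j) = u ^ 2 * qf C c := by
  unfold qf
  rw [Finset.mul_sum]
  refine Finset.sum_congr rfl fun i _ => ?_
  rw [Finset.mul_sum]
  exact Finset.sum_congr rfl fun j _ => by ring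

/-- the law of a linear form -/
noncomputable def ml (c : Fin n → ℝ) (μ : ProbabilityMeasure (Fin n → ℝ)) : ProbabilityMeasure ℝ :=
  μ.map (f := fun y => lf c y) (lf_cont c).measurable.aemeasurable

lemma ml_coe (c : Fin n → ℝ) (μ : ProbabilityMeasure (Fin n → ℝ)) :
    (ml c μ : Measure ℝ) = (μ : Measure (Fin n → ℝ)).map (fun y => lf c y) := rfl

lemma ml_exp (c : Fin n → ℝ) (μ : ProbabilityMeasure (Fin n → ℝ)) (u : ℝ) :
    ∫ x, Real.exp (u * x) ∂(ml c μ : Measure ℝ) = ∫ y, Real.exp (lf (fun j => u * c j) y) ∂(μ : Measure (Fin n → ℝ)) := by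
  rw [ml_coe, integral_map (lf_cont c).measurable.aemeasurable (by fun_prop)]
  simp_rw [lf_smul]

lemma ml_int (c : Fin n → ℝ) (μ : ProbabilityMeasure (Fin n → ℝ)) (u : ℝ)
    (h : Integrable (fun y => Real.exp (lf (fun j => u * c j) y)) (μ : Measure (Fin n → ℝ))) :
    Integrable (fun x => Real.exp (u * x)) (ml c μ : Measure ℝ) := by
  rw [ml_coe, integrable_map_measure (by fun_prop) (lf_cont c).measurable.aemeasurable]
  refine h.congr (Eventually.of_forall fun y => ?_)
  show Real.exp (lf (fun j => u * c j) y) = Real.exp (u * lf c y)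
  rw [lf_smul]

lemma ml_tendsto (c : Fin n → ℝ) {ι : Type*} {l : Filter ι} {μ : ι → ProbabilityMeasure (Fin n → ℝ)}
    {ρ : ProbabilityMeasure (Fin n → ℝ)} (h : Tendsto μ l (𝓝 ρ)) : Tendsto (fun i => ml c (μ i)) l (𝓝 (ml c ρ)) :=
  ProbabilityMeasure.tendsto_map_of_tendsto_of_continuous _ _ h (lf_cont c)

/-- the matrix of the covariances -/
def Mx (C : Fin n → Fin n → ℝ) : Matrix (Fin n) (Fin n) ℝ := Matrix.of C

lemma Mx_dot (C : Fin n → Fin n → ℝ) (x : Fin n → ℝ) : dotProduct x ((Mx C).mulVec x) = qf C x := by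
  unfold qf Mx dotProduct Matrix.mulVec dotProduct
  refine Finset.sum_congr rfl fun i _ => ?_
  rw [Finset.mul_sum]
  refine Finset.sum_congr rfl fun j _ => ?_
  simp only [Matrix.of_apply]
  ring

lemma Mx_pos {C : Fin n → Fin n → ℝ} (hC : ∀ i j, C i j = C j i) (h : ∀ c, 0 ≤ qf C c) : (Mx C).PosSemidef := by
  refine Matrix.PosSemidef.of_dotProduct_mulVec_nonneg ?_ fun x => ?_
  · ext i j
    simp only [Matrix.conjTranspose_apply, Mx, Matrix.of_apply, star_trivial]
    exact hC j i
  · rw [star_trivial, Mx_dot]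
    exact h x

/-- job SHL-BALL -/
theorem ball {μ : ℝ → ProbabilityMeasure (Fin n → ℝ)} {m : Fin n → ℝ} {C : Fin n → Fin n → ℝ} {r : ℝ}
    (hr : 0 < r) (hC : ∀ i j, C i j = C j i) (h : ∀ θ : Fin n → ℝ, (∀ j, |θ j| < r) → Lap μ m C θ) :
    ∃ ρ : ProbabilityMeasure (Fin n → ℝ), Nor m C ρ ∧ Tendsto μ atTop (𝓝 ρ) := by
  have hlin : ∀ c : Fin n → ℝ, 0 ≤ qf C c ∧
      Tendsto (fun T => ml c (μ T)) atTop (𝓝 ⟨gaussianReal (lf c m) (qf C c).toNNReal, inferInstance⟩) := by
    intro c
    have hS : 0 < 1 + ∑ j, |c j| := by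
      have : 0 ≤ ∑ j, |c j| := Finset.sum_nonneg fun j _ => abs_nonneg _
      linarith
    refine curt (r := r / (1 + ∑ j, |c j|)) (by positivity) fun u hu => ?_
    have hu' : ∀ j, |u * c j| < r := by
      intro j
      rw [abs_mul]
      have h1 : |c j| ≤ ∑ j, |c j| := Finset.single_le_sum (f := fun j => |c j|) (fun j _ => abs_nonneg _) (Finset.mem_univ j)
      have h2 : |u| * (1 + ∑ j, |c j|) < r := by rwa [lt_div_iff₀ hS] at hu
      have h3 : |u| * |c j| ≤ |u| * (1 + ∑ j, |c j|) := mul_le_mul_of_nonneg_left (by linarith) (abs_nonneg _)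
      linarith
    obtain ⟨h1, h2⟩ := h (fun j => u * c j) hu'
    refine ⟨h1.mono fun T hT => ml_int c (μ T) u hT, ?_⟩
    simp_rw [ml_exp]
    rw [lf_smul, qf_smul] at h2
    exact h2
  have hq : ∀ c, 0 ≤ qf C c := fun c => (hlin c).1
  have hPS := Mx_pos hC hq
  -- the limit
  obtain ⟨P, hP⟩ : ∃ P : ProbabilityMeasure (EuclideanSpace ℝ (Fin n)),
      (P : Measure (EuclideanSpace ℝ (Fin n))) = multivariateGaussian (WithLp.toLp 2 m) (Mx C) :=
    ⟨⟨multivariateGaussian (WithLp.toLp 2 m) (Mx C), inferInstance⟩, rfl⟩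
  have hof : Continuous (WithLp.ofLp : EuclideanSpace ℝ (Fin n) → (Fin n → ℝ)) := by fun_prop
  have hto : Continuous (WithLp.toLp 2 : (Fin n → ℝ) → EuclideanSpace ℝ (Fin n)) := by fun_prop
  obtain ⟨ρ, hρ⟩ : ∃ ρ : ProbabilityMeasure (Fin n → ℝ), ρ = P.map hof.measurable.aemeasurable := ⟨_, rfl⟩
  have hT : Tendsto μ atTop (𝓝 ρ) := by
    refine tendsto_of_seq_tendsto fun s hs => ?_
    obtain ⟨Q, hQ⟩ : ∃ Q : ℕ → ProbabilityMeasure (EuclideanSpace ℝ (Fin n)), ∀ k, Q k = (μ (s k)).map hto.measurable.aemeasurable :=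
      ⟨_, fun _ => rfl⟩
    have hQP : Tendsto Q atTop (𝓝 P) := by
      rw [ProbabilityMeasure.tendsto_iff_tendsto_charFun]
      intro t
      have h1 : ∀ k, charFun (Q k : Measure (EuclideanSpace ℝ (Fin n))) t = charFun (ml (WithLp.ofLp t) (μ (s k)) : Measure ℝ) 1 := by
        intro k
        rw [hQ, charFun_apply, charFun_apply, ml_coe]
        rw [ProbabilityMeasure.toMeasure_map, integral_map hto.measurable.aemeasurable (by fun_prop),
          integral_map (lf_cont _).measurable.aemeasurable (by fun_prop)]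
        refine integral_congr_ae (Eventually.of_forall fun y => ?_)
        simp only [PiLp.inner_apply, RCLike.inner_apply, conj_trivial]
        congr 2
        norm_cast
        unfold lf
        rw [mul_comm]
        simp
      simp_rw [h1]
      have h2 := ((hlin (WithLp.ofLp t)).2.comp hs)
      have h3 := (ProbabilityMeasure.tendsto_iff_tendsto_charFun (E := ℝ)).mp h2 1
      have h4 : charFun (P : Measure (EuclideanSpace ℝ (Fin n))) t =
          charFun ((⟨gaussianReal (lf (WithLp.ofLp t) m) (qf C (WithLp.ofLp t)).toNNReal, inferInstance⟩ : ProbabilityMeasure ℝ) :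
            Measure ℝ) 1 := by
        rw [hP, charFun_multivariateGaussian hPS]
        show _ = charFun (gaussianReal (lf (WithLp.ofLp t) m) (qf C (WithLp.ofLp t)).toNNReal) 1
        rw [charFun_gaussianReal, Mx_dot, Real.coe_toNNReal _ (hq _)]
        congr 1
        simp only [PiLp.inner_apply, RCLike.inner_apply, conj_trivial]
        unfold lf
        push_cast
        simp only [one_mul, one_pow, mul_one]
        congr 3
        funext j
        ring
      rw [h4]
      exact h3
    have h5 := ProbabilityMeasure.tendsto_map_of_tendsto_of_continuous _ _ hQP hof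
    rw [← hρ] at h5
    refine h5.congr fun k => ?_
    apply Subtype.ext
    rw [hQ]
    show ((((μ (s k)).map hto.measurable.aemeasurable).map hof.measurable.aemeasurable : ProbabilityMeasure (Fin n → ℝ)) :
      Measure (Fin n → ℝ)) = (μ (s k) : Measure (Fin n → ℝ))
    rw [ProbabilityMeasure.toMeasure_map, ProbabilityMeasure.toMeasure_map, Measure.map_map hof.measurable hto.measurable]
    have : (WithLp.ofLp : EuclideanSpace ℝ (Fin n) → (Fin n → ℝ)) ∘ (WithLp.toLp 2) = id := by
      funext y; rfl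
    rw [this, Measure.map_id]
  refine ⟨ρ, fun c => ⟨hq c, ?_⟩, hT⟩
  have h1 := tendsto_nhds_unique (ml_tendsto c hT) (hlin c).2
  have h2 := congrArg (fun ν : ProbabilityMeasure ℝ => (ν : Measure ℝ)) h1
  exact h2

end Pool.Agent.R313.SH
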