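import Pool.Agent.Y753.NL.Cur

set_option autoImplicit false

/-! Curtiss' theorem on the line with Laplace transforms in a neighbourhood of zero and a normal limit. -/

namespace Pool.Agent.R313.SH

open MeasureTheory Filter Topology ProbabilityTheory BoundedContinuousFunction
open Pool.Agent.Y753.NL (te te_apply te_near)

/-- probability measures with bounded exponential moments of order `a` -/
def Ex (a C : ℝ) : Set (ProbabilityMeasure ℝ) :=
  {μ : ProbabilityMeasure ℝ | Integrable (fun x => Real.exp (a * x)) (μ : Measure ℝ) ∧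
      Integrable (fun x => Real.exp (-a * x)) (μ : Measure ℝ) ∧
      ∫ x, Real.exp (a * x) ∂(μ : Measure ℝ) ≤ C ∧ ∫ x, Real.exp (-a * x) ∂(μ : Measure ℝ) ≤ C}

lemma tight_Ex {a : ℝ} (ha : 0 < a) (C : ℝ) : IsTightMeasureSet {((μ : ProbabilityMeasure ℝ) : Measure ℝ) | μ ∈ Ex a C} := by
  rw [isTightMeasureSet_iff_exists_isCompact_measure_compl_le]
  intro ε hε
  obtain ⟨r, hr⟩ : ∃ r : ℝ, ENNReal.ofReal (2 * C * Real.exp (-(a * r))) ≤ ε := by
    have h0 : Tendsto (fun r : ℝ => Real.exp (-(a * r))) atTop (𝓝 0) :=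
      Real.tendsto_exp_neg_atTop_nhds_zero.comp (tendsto_id.const_mul_atTop ha)
    have h1 : Tendsto (fun r : ℝ => ENNReal.ofReal (2 * C * Real.exp (-(a * r)))) atTop (𝓝 (ENNReal.ofReal (2 * C * 0))) :=
      ENNReal.tendsto_ofReal (h0.const_mul _)
    rw [mul_zero, ENNReal.ofReal_zero] at h1
    exact ((h1.eventually (gt_mem_nhds hε)).exists).imp fun r hr => hr.le
  refine ⟨Metric.closedBall 0 r, isCompact_closedBall 0 r, ?_⟩
  rintro _ ⟨μ, ⟨h1, h2, h3, h4⟩, rfl⟩
  refine le_trans ?_ hr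
  have h5 : (μ : Measure ℝ).real (Metric.closedBall 0 r)ᶜ ≤ 2 * C * Real.exp (-(a * r)) := by
    have hm : MeasurableSet (Metric.closedBall (0:ℝ) r)ᶜ := Metric.isClosed_closedBall.measurableSet.compl
    rw [← integral_indicator_one hm]
    have h6 : ∫ x, (Metric.closedBall (0:ℝ) r)ᶜ.indicator 1 x ∂(μ : Measure ℝ) ≤
        ∫ x, (Real.exp (a * x) + Real.exp (-a * x)) * Real.exp (-(a * r)) ∂(μ : Measure ℝ) := by
      refine integral_mono ?_ ((h1.add h2).mul_const _) fun x => ?_
      · exact (integrable_const (1:ℝ)).indicator hm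
      · by_cases hx : x ∈ (Metric.closedBall (0:ℝ) r)ᶜ
        · rw [Set.indicator_of_mem hx]
          rw [Set.mem_compl_iff, Metric.mem_closedBall, Real.dist_eq, sub_zero, not_le] at hx
          show (1:ℝ) ≤ (Real.exp (a * x) + Real.exp (-a * x)) * Real.exp (-(a * r))
          rcases le_or_gt 0 x with h0 | h0
          · rw [abs_of_nonneg h0] at hx
            have : 1 ≤ Real.exp (a * x) * Real.exp (-(a * r)) := by
              rw [← Real.exp_add]; exact Real.one_le_exp (by nlinarith)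
            nlinarith [mul_pos (Real.exp_pos (-a * x)) (Real.exp_pos (-(a * r)))]
          · rw [abs_of_neg h0] at hx
            have : 1 ≤ Real.exp (-a * x) * Real.exp (-(a * r)) := by
              rw [← Real.exp_add]; exact Real.one_le_exp (by nlinarith)
            nlinarith [mul_pos (Real.exp_pos (a * x)) (Real.exp_pos (-(a * r)))]
        · rw [Set.indicator_of_notMem hx]
          positivity
    refine h6.trans ?_
    rw [integral_mul_const, integral_add h1 h2]
    exact mul_le_mul_of_nonneg_right (by linarith) (Real.exp_pos _).le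
  rw [measureReal_def] at h5
  exact ENNReal.le_ofReal_iff_toReal_le (measure_ne_top _ _) (le_trans ENNReal.toReal_nonneg h5) |>.mpr h5

lemma prod_ge_one {μ : Measure ℝ} [IsProbabilityMeasure μ] {u : ℝ}
    (h1 : Integrable (fun x => Real.exp (u * x)) μ) (h2 : Integrable (fun x => Real.exp (-u * x)) μ) :
    1 ≤ (∫ x, Real.exp (u * x) ∂μ) * ∫ x, Real.exp (-u * x) ∂μ := by
  set A := ∫ x, Real.exp (u * x) ∂μ with hA
  set B := ∫ x, Real.exp (-u * x) ∂μ with hB
  have hA0 : 0 < A := integral_exp_pos h1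
  have h3 : ∀ s : ℝ, 0 < s → 2 ≤ s * A + s⁻¹ * B := by
    intro s hs
    have h4 : ∫ x, (2:ℝ) ∂μ ≤ ∫ x, (s * Real.exp (u * x) + s⁻¹ * Real.exp (-u * x)) ∂μ := by
      refine integral_mono (integrable_const _) ((h1.const_mul _).add (h2.const_mul _)) fun x => ?_
      show (2:ℝ) ≤ s * Real.exp (u * x) + s⁻¹ * Real.exp (-u * x)
      have e1 : Real.exp (-u * x) = (Real.exp (u * x))⁻¹ := by rw [← Real.exp_neg]; congr 1; ring
      rw [e1, ← mul_inv]
      have hp : 0 < s * Real.exp (u * x) := by positivity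
      set z := s * Real.exp (u * x)
      have : z + z⁻¹ - 2 = (z - 1) ^ 2 / z := by field_simp; ring
      have h5 : 0 ≤ (z - 1) ^ 2 / z := by positivity
      linarith
    rw [integral_const, probReal_univ, one_smul, integral_add (h1.const_mul _) (h2.const_mul _), integral_const_mul,
      integral_const_mul] at h4
    exact h4
  have h5 := h3 A⁻¹ (by positivity)
  rw [inv_mul_cancel₀ hA0.ne', inv_inv] at h5
  linarith

/-- equality of measures from the equality of the Laplace transforms near zero -/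
lemma ext_near {μ ν : Measure ℝ} [IsProbabilityMeasure μ] [IsProbabilityMeasure ν] {r : ℝ} (hr : 0 < r)
    (h1 : ∀ u : ℝ, |u| < r → Integrable (fun x => Real.exp (u * x)) μ)
    (h2 : ∀ u : ℝ, |u| < r → Integrable (fun x => Real.exp (u * x)) ν)
    (h : ∀ u : ℝ, |u| < r → ∫ x, Real.exp (u * x) ∂μ = ∫ x, Real.exp (u * x) ∂ν) : μ = ν := by
  set U : Set ℂ := {z : ℂ | |z.re| < r} with hU
  have hUo : IsOpen U := isOpen_lt (continuous_abs.comp Complex.continuous_re) continuous_const
  have hUe : U = Complex.re ⁻¹' Set.Ioo (-r) r := by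
    ext z
    simp only [hU, Set.mem_ofPred_eq, Set.mem_preimage, Set.mem_Ioo, abs_lt]
  have hUc : IsPreconnected U := by
    rw [hUe]
    exact ((convex_Ioo (-r) r).is_linear_preimage ⟨fun _ _ => by simp, fun _ _ => by simp⟩).isPreconnected
  have hsub : ∀ {κ : Measure ℝ}, (∀ u : ℝ, |u| < r → Integrable (fun x => Real.exp (u * x)) κ) →
      U ⊆ {z : ℂ | z.re ∈ interior (integrableExpSet id κ)} := by
    intro κ hκ z hz
    show z.re ∈ interior (integrableExpSet id κ)
    rw [mem_interior]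
    refine ⟨Set.Ioo (-r) r, fun u hu => ?_, isOpen_Ioo, abs_lt.mp hz⟩
    exact hκ u (abs_lt.mpr hu)
  have ha1 : AnalyticOnNhd ℂ (complexMGF id μ) U := analyticOnNhd_complexMGF.mono (hsub h1)
  have ha2 : AnalyticOnNhd ℂ (complexMGF id ν) U := analyticOnNhd_complexMGF.mono (hsub h2)
  have h0 : (0:ℂ) ∈ U := by
    show |(0:ℂ).re| < r
    simpa using hr
  have hfreq : ∃ᶠ z in 𝓝[≠] (0:ℂ), complexMGF id μ z = complexMGF id ν z := by
    have hev : ∀ᶠ x : ℝ in 𝓝[≠] (0:ℝ), complexMGF id μ (x:ℂ) = complexMGF id ν (x:ℂ) := by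
      have : ∀ᶠ x : ℝ in 𝓝 (0:ℝ), |x| < r := by
        have := Metric.ball_mem_nhds (0:ℝ) hr
        filter_upwards [this] with x hx
        rwa [Metric.mem_ball, Real.dist_eq, sub_zero] at hx
      filter_upwards [nhdsWithin_le_nhds this] with x hx
      rw [complexMGF_ofReal, complexMGF_ofReal]
      have := h x hx
      exact_mod_cast this
    have hlim : Tendsto (fun x : ℝ => (x:ℂ)) (𝓝[≠] (0:ℝ)) (𝓝[≠] (0:ℂ)) := by
      refine tendsto_nhdsWithin_of_tendsto_nhds_of_eventually_within _ ?_ ?_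
      · have := (Complex.continuous_ofReal.tendsto (0:ℝ))
        rw [Complex.ofReal_zero] at this
        exact this.mono_left nhdsWithin_le_nhds
      · filter_upwards [self_mem_nhdsWithin] with x hx
        simpa using hx
    exact hlim.frequently hev.frequently
  have heq := ha1.eqOn_of_preconnected_of_frequently_eq ha2 hUc h0 hfreq
  refine Measure.ext_of_charFun (funext fun t => ?_)
  rw [← complexMGF_id_mul_I, ← complexMGF_id_mul_I]
  refine heq ?_
  show |((t:ℂ) * Complex.I).re| < r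
  simpa using hr

/-- job SHL-CURT -/
theorem curt {μ : ℝ → ProbabilityMeasure ℝ} {m v r : ℝ} (hr : 0 < r)
    (h : ∀ u : ℝ, |u| < r → (∀ᶠ T in atTop, Integrable (fun x => Real.exp (u * x)) (μ T : Measure ℝ)) ∧
      Tendsto (fun T => ∫ x, Real.exp (u * x) ∂(μ T : Measure ℝ)) atTop (𝓝 (Real.exp (u * m + u ^ 2 * v / 2)))) :
    0 ≤ v ∧ Tendsto μ atTop (𝓝 ⟨gaussianReal m v.toNNReal, inferInstance⟩) := by
  have hv : 0 ≤ v := by
    obtain ⟨a1, a2⟩ := h (r / 2) (by rw [abs_of_pos (by positivity)]; linarith)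
    obtain ⟨b1, b2⟩ := h (-(r / 2)) (by rw [abs_neg, abs_of_pos (by positivity)]; linarith)
    have h3 := a2.mul b2
    have h4 : ∀ᶠ T in atTop, 1 ≤ (∫ x, Real.exp (r / 2 * x) ∂(μ T : Measure ℝ)) * ∫ x, Real.exp (-(r / 2) * x) ∂(μ T : Measure ℝ) := by
      filter_upwards [a1, b1] with T c1 c2
      exact prod_ge_one c1 c2
    have h5 := ge_of_tendsto h3 h4
    rw [← Real.exp_add] at h5
    have h6 := Real.one_le_exp_iff.mp h5
    have h7 : r / 2 * m + (r / 2) ^ 2 * v / 2 + (-(r / 2) * m + (-(r / 2)) ^ 2 * v / 2) = (r / 2) ^ 2 * v := by ring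
    rw [h7] at h6
    exact nonneg_of_mul_nonneg_right h6 (by positivity)
  refine ⟨hv, ?_⟩
  obtain ⟨ν, hν⟩ : ∃ ν : ProbabilityMeasure ℝ, ν = ⟨gaussianReal m v.toNNReal, inferInstance⟩ := ⟨_, rfl⟩
  have hνm : (ν : Measure ℝ) = gaussianReal m v.toNNReal := by rw [hν]; rfl
  rw [← hν]
  obtain ⟨M, hM⟩ : ∃ M : ℝ → ℝ, ∀ u, M u = Real.exp (u * m + u ^ 2 * v / 2) := ⟨_, fun _ => rfl⟩
  simp_rw [← hM] at h
  have hνi : ∀ u : ℝ, Integrable (fun x => Real.exp (u * x)) (ν : Measure ℝ) := fun u => by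
    rw [hνm]; exact integrable_exp_mul_gaussianReal u
  have hνM : ∀ u : ℝ, ∫ x, Real.exp (u * x) ∂(ν : Measure ℝ) = M u := by
    intro u
    have h1 := congrFun (mgf_id_gaussianReal (μ := m) (v := v.toNNReal)) u
    rw [hνm, hM]
    simp only [mgf, id] at h1
    rw [h1, Real.coe_toNNReal v hv]
    congr 1; ring
  have hM0 : ∀ u, 0 ≤ M u := fun u => by rw [hM]; exact (Real.exp_pos _).le
  rw [tendsto_iff_ultrafilter]
  intro g hg
  have hb : ∀ s : ℝ, |s| < r → ∀ᶠ i in (g : Filter ℝ), ∫ x, Real.exp (s * x) ∂(μ i : Measure ℝ) ≤ M s + 1 := fun s hs =>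
    hg (((h s hs).2).eventually (ge_mem_nhds (by linarith)))
  set a := r / 2 with ha
  have ha0 : 0 < a := by positivity
  have har : |a| < r := by rw [abs_of_pos ha0]; linarith
  have har' : |(-a)| < r := by rw [abs_neg]; exact har
  set C := max (M a + 1) (M (-a) + 1) with hC
  have hcomp : IsCompact (closure (Ex a C)) := isCompact_closure_of_isTightMeasureSet (tight_Ex ha0 C)
  have hmem : ∀ᶠ i in (g : Filter ℝ), μ i ∈ Ex a C := by
    filter_upwards [hg (h a har).1, hg (h (-a) har').1, hb a har, hb (-a) har'] with i a1 a2 a3 a4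
    exact ⟨a1, a2, a3.trans (le_max_left _ _), a4.trans (le_max_right _ _)⟩
  obtain ⟨ρ, -, hρ⟩ := isCompact_iff_ultrafilter_le_nhds.mp hcomp (g.map μ) (by
    rw [Ultrafilter.coe_map, le_principal_iff, mem_map]
    filter_upwards [hmem] with i hi
    exact subset_closure hi)
  have hT : Tendsto μ g (𝓝 ρ) := hρ
  have hF := ProbabilityMeasure.tendsto_iff_forall_integral_tendsto.mp hT
  have key : ∀ s R : ℝ, ∀ hR : 0 < R, |2 * s| < r → |∫ x, te s R hR.le x ∂(ρ : Measure ℝ) - M s| ≤ (M (2 * s) + 1) / R := by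
    intro s R hR hs
    have hs1 : |s| < r := by
      rw [abs_mul, abs_two] at hs
      have := abs_nonneg s
      linarith
    have h1 := (hF (te s R hR.le)).sub (((h s hs1).2).mono_left hg)
    refine le_of_tendsto h1.abs ?_
    filter_upwards [hg (h s hs1).1, hg (h (2 * s) hs).1, hb (2 * s) hs] with i a1 a2 a3
    refine (te_near hR a1 a2).trans ?_
    exact div_le_div_of_nonneg_right a3 hR.le
  have hint : ∀ s : ℝ, |2 * s| < r → Integrable (fun x => Real.exp (s * x)) (ρ : Measure ℝ) := by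
    intro s hs
    refine Pool.Agent.Y753.NL.te_lim (C := M s + (M (2 * s) + 1)) fun R hR => ?_
    rcases le_or_gt 1 R with h1 | h1
    · have h2 := (abs_le.mp (key s R hR hs)).2
      have h3 : (M (2 * s) + 1) / R ≤ M (2 * s) + 1 := div_le_self (by have := hM0 (2 * s); linarith) h1
      linarith
    · have h2 := (abs_le.mp (key s 1 one_pos hs)).2
      have h4 : ∫ x, te s R hR.le x ∂(ρ : Measure ℝ) ≤ ∫ x, te s 1 zero_le_one x ∂(ρ : Measure ℝ) := by
        refine integral_mono ((te s R hR.le).integrable _) ((te s 1 zero_le_one).integrable _) fun x => ?_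
        show te s R hR.le x ≤ te s 1 zero_le_one x
        rw [te_apply, te_apply]
        exact min_le_min le_rfl h1.le
      rw [div_one] at h2
      linarith
  have heq : ∀ s : ℝ, |4 * s| < r → ∫ x, Real.exp (s * x) ∂(ρ : Measure ℝ) = M s := by
    intro s hs
    have hs2 : |2 * s| < r := by
      rw [abs_mul] at hs ⊢
      have := abs_nonneg s
      norm_num at hs ⊢
      linarith
    have hs4 : |2 * (2 * s)| < r := by rwa [← mul_assoc, show (2:ℝ) * 2 = 4 by norm_num]
    have h1 : ∀ R : ℝ, 0 < R → |∫ x, Real.exp (s * x) ∂(ρ : Measure ℝ) - M s| ≤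
        ((∫ x, Real.exp (2 * s * x) ∂(ρ : Measure ℝ)) + (M (2 * s) + 1)) / R := by
      intro R hR
      have h2 := te_near hR (hint s hs2) (hint (2 * s) hs4)
      have h3 := key s R hR hs2
      rw [abs_sub_comm] at h2
      have h4 := abs_add_le (∫ x, Real.exp (s * x) ∂(ρ : Measure ℝ) - ∫ x, te s R hR.le x ∂(ρ : Measure ℝ))
        (∫ x, te s R hR.le x ∂(ρ : Measure ℝ) - M s)
      rw [sub_add_sub_cancel] at h4
      rw [add_div]
      linarith
    have h5 : Tendsto (fun R : ℝ => ((∫ x, Real.exp (2 * s * x) ∂(ρ : Measure ℝ)) + (M (2 * s) + 1)) / R) atTop (𝓝 0) :=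
      tendsto_const_nhds.div_atTop tendsto_id
    have h6 : |∫ x, Real.exp (s * x) ∂(ρ : Measure ℝ) - M s| ≤ 0 :=
      ge_of_tendsto h5 ((eventually_gt_atTop 0).mono fun R hR => h1 R hR)
    exact sub_eq_zero.mp (abs_eq_zero.mp (le_antisymm h6 (abs_nonneg _)))
  have hfin' : (ρ : Measure ℝ) = (ν : Measure ℝ) := ext_near (r := r / 4) (by positivity) (fun u hu => hint u (by
      rw [abs_mul, abs_two]; have := abs_nonneg u; linarith)) (fun u _ => hνi u) (fun u hu => by
      rw [heq u (by rw [abs_mul, abs_of_pos (by norm_num : (0:ℝ) < 4)]; linarith), hνM])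
  have hfin : ρ = ν := Subtype.ext hfin'
  rw [hfin] at hT
  exact hT

end Pool.Agent.R313.SH
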