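import Pool.Agent.R313.SH.Land

set_option autoImplicit false

/-! Rational points of the simplex suffice. -/

namespace Pool.Agent.R313.SH

open MeasureTheory Filter Topology ProbabilityTheory BoundedContinuousFunction
open Pool.Agent.Y753.SHL

variable {n : ℕ}

/-- the limit -/
noncomputable def Lf (m : Fin n → ℝ) (C : Fin n → Fin n → ℝ) (θ : Fin n → ℝ) : ℝ := Real.exp (lf θ m + qf C θ / 2)

lemma Lf_cont (m : Fin n → ℝ) (C : Fin n → Fin n → ℝ) : Continuous (Lf m C) := by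
  unfold Lf lf qf
  fun_prop

/-- a corner of a box -/
def cn (a c : Fin n → ℝ) (e : Fin n → Bool) : Fin n → ℝ := fun j => if e j then c j else a j

/-- the weights -/
noncomputable def wt (a θ c : Fin n → ℝ) (j : Fin n) (e : Bool) : ℝ :=
  if e then (θ j - a j) / (c j - a j) else (c j - θ j) / (c j - a j)

lemma wt_nonneg {a θ c : Fin n → ℝ} (h1 : ∀ j, a j < θ j) (h2 : ∀ j, θ j < c j) (j : Fin n) (e : Bool) : 0 ≤ wt a θ c j e := by
  unfold wt
  have g1 := h1 j
  have g2 := h2 j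
  split_ifs
  · exact div_nonneg (by linarith) (by linarith)
  · exact div_nonneg (by linarith) (by linarith)

lemma sum_prod (f : Fin n → Bool → ℝ) : ∑ e : Fin n → Bool, ∏ j, f j (e j) = ∏ j, (f j true + f j false) := by
  have h := Finset.prod_univ_sum (fun _ : Fin n => (Finset.univ : Finset Bool)) f
  rw [Fintype.piFinset_univ] at h
  rw [← h]
  refine Finset.prod_congr rfl fun j _ => ?_
  rw [Fintype.sum_bool]

lemma wt_sum {a θ c : Fin n → ℝ} (h1 : ∀ j, a j < θ j) (h2 : ∀ j, θ j < c j) : ∑ e : Fin n → Bool, ∏ j, wt a θ c j (e j) = 1 := by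
  rw [sum_prod]
  refine Finset.prod_eq_one fun j _ => ?_
  have g1 := h1 j
  have g2 := h2 j
  have g3 : c j - a j ≠ 0 := by intro h; linarith
  unfold wt
  simp only [if_true, Bool.false_eq_true, if_false]
  field_simp
  ring

lemma one_dim {a θ c : ℝ} (h1 : a < θ) (h2 : θ < c) (y : ℝ) :
    Real.exp (θ * y) ≤ (θ - a) / (c - a) * Real.exp (c * y) + (c - θ) / (c - a) * Real.exp (a * y) := by
  have hac : 0 < c - a := by linarith
  have h := convexOn_exp.2 (Set.mem_univ (c * y)) (Set.mem_univ (a * y))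
    (show 0 ≤ (θ - a) / (c - a) from div_nonneg (by linarith) hac.le)
    (show 0 ≤ (c - θ) / (c - a) from div_nonneg (by linarith) hac.le)
    (show (θ - a) / (c - a) + (c - θ) / (c - a) = 1 by rw [← add_div, div_eq_one_iff_eq hac.ne']; ring)
  simp only [smul_eq_mul] at h
  have e1 : (θ - a) / (c - a) * (c * y) + (c - θ) / (c - a) * (a * y) = θ * y := by
    field_simp
    ring
  rw [e1] at h
  exact h

lemma box_bound {a θ c : Fin n → ℝ} (h1 : ∀ j, a j < θ j) (h2 : ∀ j, θ j < c j) (y : Fin n → ℝ) :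
    Real.exp (lf θ y) ≤ ∑ e : Fin n → Bool, (∏ j, wt a θ c j (e j)) * Real.exp (lf (cn a c e) y) := by
  have e1 : ∀ e : Fin n → Bool, (∏ j, wt a θ c j (e j)) * Real.exp (lf (cn a c e) y) =
      ∏ j, (wt a θ c j (e j) * Real.exp ((if e j then c j else a j) * y j)) := by
    intro e
    rw [Finset.prod_mul_distrib]
    congr 1
    unfold lf cn
    rw [Real.exp_sum]
  simp_rw [e1]
  rw [sum_prod (fun j (b : Bool) => wt a θ c j b * Real.exp ((if b then c j else a j) * y j))]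
  unfold lf
  rw [Real.exp_sum]
  refine Finset.prod_le_prod (fun j _ => (Real.exp_pos _).le) fun j _ => ?_
  have h3 := one_dim (h1 j) (h2 j) (y j)
  unfold wt
  simpa using h3

/-- rational corners near a point of the simplex -/
lemma box_ex {b : ℝ} (hb : 0 < b) {θ : Fin n → ℝ} (h0 : ∀ j, 0 < θ j) (h1 : ∑ j, θ j < b) {η : ℝ} (hη : 0 < η) :
    ∃ p q : Fin n → ℚ, (∀ j, 0 < p j) ∧ (∀ j, b * p j < θ j) ∧ (∀ j, θ j < b * q j) ∧ (∀ j, θ j - η < b * p j) ∧
      (∀ j, b * q j < θ j + η) ∧ ∑ j, (q j : ℝ) < 1 := by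
  have hN : (0:ℝ) < (n:ℝ) + 1 := by positivity
  obtain ⟨t, ht⟩ : ∃ t : ℝ, t = min (η / b) ((1 - (∑ j, θ j) / b) / ((n:ℝ) + 1)) := ⟨_, rfl⟩
  have h2 : (∑ j, θ j) / b < 1 := by rw [div_lt_one hb]; exact h1
  have ht0 : 0 < t := by rw [ht]; exact lt_min (by positivity) (div_pos (by linarith) hN)
  have ht1 : t ≤ η / b := by rw [ht]; exact min_le_left _ _
  have ht2 : t ≤ (1 - (∑ j, θ j) / b) / ((n:ℝ) + 1) := by rw [ht]; exact min_le_right _ _
  have hp : ∀ j, ∃ p : ℚ, max 0 (θ j / b - t) < (p:ℝ) ∧ (p:ℝ) < θ j / b := fun j =>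
    exists_rat_btwn (max_lt (div_pos (h0 j) hb) (by linarith))
  have hq : ∀ j, ∃ q : ℚ, θ j / b < (q:ℝ) ∧ (q:ℝ) < θ j / b + t := fun j => exists_rat_btwn (by linarith)
  choose p hp1 hp2 using hp
  choose q hq1 hq2 using hq
  have htb : b * t ≤ η := by
    have := mul_le_mul_of_nonneg_left ht1 hb.le
    rwa [mul_div_cancel₀ _ hb.ne'] at this
  refine ⟨p, q, fun j => ?_, fun j => ?_, fun j => ?_, fun j => ?_, fun j => ?_, ?_⟩
  · have := (le_max_left _ _).trans_lt (hp1 j)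
    exact_mod_cast this
  · have := (lt_div_iff₀ hb).mp (hp2 j)
    linarith
  · have := (div_lt_iff₀ hb).mp (hq1 j)
    linarith
  · have g1 := (le_max_right _ _).trans_lt (hp1 j)
    have g2 := mul_lt_mul_of_pos_left g1 hb
    rw [mul_sub, mul_div_cancel₀ _ hb.ne'] at g2
    linarith
  · have g2 := mul_lt_mul_of_pos_left (hq2 j) hb
    rw [mul_add, mul_div_cancel₀ _ hb.ne'] at g2
    linarith
  · have g1 : ∑ j, (q j : ℝ) ≤ ∑ j, (θ j / b + t) := Finset.sum_le_sum fun j _ => (hq2 j).le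
    rw [Finset.sum_add_distrib, ← Finset.sum_div, Finset.sum_const, Finset.card_univ, Fintype.card_fin, nsmul_eq_mul] at g1
    have g2 : (n:ℝ) * t < 1 - (∑ j, θ j) / b := by
      rw [le_div_iff₀ hN] at ht2
      nlinarith
    linarith

/-- job SHL-DENSE -/
theorem dense (n : ℕ) (μ : ℝ → ProbabilityMeasure (Fin n → ℝ)) (m : Fin n → ℝ) (C : Fin n → Fin n → ℝ) (b : ℝ)
    (hb : 0 < b) (h : ∀ q : Fin n → ℚ, (∀ j, 0 < q j) → ∑ j, (q j : ℝ) < 1 → Lap μ m C (fun j => b * q j)) :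
    ∀ θ : Fin n → ℝ, (∀ j, 0 < θ j) → ∑ j, θ j < b → Lap μ m C θ := by
  -- upper bounds
  have hup : ∀ θ : Fin n → ℝ, (∀ j, 0 < θ j) → ∑ j, θ j < b → ∀ κ : ℝ, 0 < κ → ∀ᶠ T in atTop,
      Integrable (fun y => Real.exp (lf θ y)) (μ T : Measure (Fin n → ℝ)) ∧
      ∫ y, Real.exp (lf θ y) ∂(μ T : Measure (Fin n → ℝ)) ≤ Lf m C θ + κ := by
    intro θ h0 h1 κ hκ
    obtain ⟨η, hη, hcont⟩ := Metric.continuous_iff.mp (Lf_cont m C) θ (κ / 2) (by positivity)
    obtain ⟨p, q, hp0, hp1, hq1, hp2, hq2, hqs⟩ := box_ex hb h0 h1 hη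
    obtain ⟨a, ha⟩ : ∃ a : Fin n → ℝ, a = fun j => b * (p j : ℝ) := ⟨_, rfl⟩
    obtain ⟨c, hc⟩ : ∃ c : Fin n → ℝ, c = fun j => b * (q j : ℝ) := ⟨_, rfl⟩
    have ha1 : ∀ j, a j < θ j := fun j => by rw [ha]; exact hp1 j
    have hc1 : ∀ j, θ j < c j := fun j => by rw [hc]; exact hq1 j
    have hpq : ∀ j, (p j : ℝ) < q j := fun j => by
      have := (hp1 j).trans (hq1 j)
      exact lt_of_mul_lt_mul_left this hb.le
    have hlap : ∀ e : Fin n → Bool, Lap μ m C (cn a c e) := by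
      intro e
      have e1 : cn a c e = fun j => b * ((if e j then q j else p j : ℚ) : ℝ) := by
        funext j
        unfold cn
        rw [ha, hc]
        split_ifs <;> rfl
      rw [e1]
      refine h _ (fun j => ?_) (lt_of_le_of_lt (Finset.sum_le_sum fun j _ => ?_) hqs)
      · split_ifs
        · have g1 := hp0 j
          have g2 : p j < q j := by exact_mod_cast hpq j
          linarith
        · exact hp0 j
      · split_ifs
        · exact le_rfl
        · exact (hpq j).le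
    have hclose : ∀ e : Fin n → Bool, Lf m C (cn a c e) ≤ Lf m C θ + κ / 2 := by
      intro e
      have g1 : dist (cn a c e) θ < η := by
        rw [dist_pi_lt_iff hη]
        intro j
        rw [Real.dist_eq, abs_lt]
        unfold cn
        rw [ha, hc]
        have k1 := hp1 j
        have k2 := hq1 j
        have k3 := hp2 j
        have k4 := hq2 j
        split_ifs
        · constructor <;> linarith
        · constructor <;> linarith
      have g2 := hcont _ g1
      rw [Real.dist_eq] at g2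
      have := (abs_lt.mp g2).2
      linarith
    have hev : ∀ᶠ T in atTop, ∀ e : Fin n → Bool, Integrable (fun y => Real.exp (lf (cn a c e) y)) (μ T : Measure (Fin n → ℝ)) ∧
        ∫ y, Real.exp (lf (cn a c e) y) ∂(μ T : Measure (Fin n → ℝ)) ≤ Lf m C θ + κ := by
      rw [eventually_all]
      intro e
      have g1 := (hlap e).2.eventually (gt_mem_nhds (show Real.exp (lf (cn a c e) m + qf C (cn a c e) / 2) < Lf m C θ + κ by
        have := hclose e
        unfold Lf at this ⊢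
        linarith))
      filter_upwards [(hlap e).1, g1] with T k1 k2
      exact ⟨k1, k2.le⟩
    filter_upwards [hev] with T hT
    have hi : Integrable (fun y => ∑ e : Fin n → Bool, (∏ j, wt a θ c j (e j)) * Real.exp (lf (cn a c e) y)) (μ T : Measure (Fin n → ℝ)) :=
      integrable_finsetSum _ fun e _ => (hT e).1.const_mul _
    have hiθ : Integrable (fun y => Real.exp (lf θ y)) (μ T : Measure (Fin n → ℝ)) := by
      refine hi.mono' (Real.continuous_exp.comp (lf_cont θ)).aestronglyMeasurable (Eventually.of_forall fun y => ?_)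
      rw [Real.norm_of_nonneg (Real.exp_pos _).le]
      exact box_bound ha1 hc1 y
    refine ⟨hiθ, (integral_mono hiθ hi fun y => box_bound ha1 hc1 y).trans ?_⟩
    rw [integral_finsetSum _ fun e _ => (hT e).1.const_mul _]
    simp_rw [integral_const_mul]
    calc ∑ e : Fin n → Bool, (∏ j, wt a θ c j (e j)) * ∫ y, Real.exp (lf (cn a c e) y) ∂(μ T : Measure (Fin n → ℝ))
        ≤ ∑ e : Fin n → Bool, (∏ j, wt a θ c j (e j)) * (Lf m C θ + κ) :=
          Finset.sum_le_sum fun e _ => mul_le_mul_of_nonneg_left (hT e).2 (Finset.prod_nonneg fun j _ => wt_nonneg ha1 hc1 j _)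
      _ = Lf m C θ + κ := by rw [← Finset.sum_mul, wt_sum ha1 hc1, one_mul]
  intro θ h0 h1
  refine ⟨(hup θ h0 h1 1 one_pos).mono fun T hT => hT.1, ?_⟩
  rw [Metric.tendsto_nhds]
  intro κ hκ
  -- a rational point near `θ`, and its reflection
  obtain ⟨η1, hη1, hcont⟩ := Metric.continuous_iff.mp (Lf_cont m C) θ (κ / 8) (by positivity)
  obtain ⟨η2, hη2, hsimp⟩ : ∃ η2 : ℝ, 0 < η2 ∧ ∀ φ : Fin n → ℝ, (∀ j, |φ j - θ j| < η2) → (∀ j, 0 < φ j) ∧ ∑ j, φ j < b := by
    have hop : IsOpen {φ : Fin n → ℝ | (∀ j, 0 < φ j) ∧ ∑ j, φ j < b} := by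
      have : {φ : Fin n → ℝ | (∀ j, 0 < φ j) ∧ ∑ j, φ j < b} = (⋂ j, {φ : Fin n → ℝ | 0 < φ j}) ∩ {φ : Fin n → ℝ | ∑ j, φ j < b} := by
        ext φ
        simp
      rw [this]
      refine (isOpen_iInter_of_finite fun j => isOpen_lt continuous_const (continuous_apply j)).inter
        (isOpen_lt (by fun_prop) continuous_const)
    obtain ⟨η2, hη2, hb2⟩ := Metric.isOpen_iff.mp hop θ ⟨h0, h1⟩
    refine ⟨η2, hη2, fun φ hφ => hb2 ?_⟩
    rw [Metric.mem_ball, dist_pi_lt_iff hη2]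
    intro j
    rw [Real.dist_eq]
    exact hφ j
  have hmin : 0 < min η1 η2 := lt_min hη1 hη2
  obtain ⟨p, q, hp0, hp1, hq1, hp2, hq2, hqs⟩ := box_ex hb h0 h1 (half_pos hmin)
  obtain ⟨φ, hφ⟩ : ∃ φ : Fin n → ℝ, φ = fun j => b * (p j : ℝ) := ⟨_, rfl⟩
  obtain ⟨ψ, hψ⟩ : ∃ ψ : Fin n → ℝ, ψ = fun j => 2 * φ j - θ j := ⟨_, rfl⟩
  have hφθ : ∀ j, |φ j - θ j| < min η1 η2 / 2 := by
    intro j
    rw [hφ, abs_lt]
    have := hp1 j
    have := hp2 j
    constructor <;> linarith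
  have hψθ : ∀ j, |ψ j - θ j| < min η1 η2 := by
    intro j
    have e1 : ψ j - θ j = 2 * (φ j - θ j) := by rw [hψ]; ring
    rw [e1, abs_mul, abs_two]
    have := hφθ j
    linarith
  have hcl : ∀ χ : Fin n → ℝ, (∀ j, |χ j - θ j| < min η1 η2) → |Lf m C χ - Lf m C θ| < κ / 8 := by
    intro χ hχ
    have g1 : dist χ θ < η1 := by
      rw [dist_pi_lt_iff hη1]
      intro j
      rw [Real.dist_eq]
      exact (hχ j).trans_le (min_le_left _ _)
    have g2 := hcont χ g1
    rwa [Real.dist_eq] at g2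
  have k1 := abs_lt.mp (hcl φ fun j => (hφθ j).trans (by linarith))
  have k2 := abs_lt.mp (hcl ψ hψθ)
  have hψs := hsimp ψ fun j => (hψθ j).trans_le (min_le_right _ _)
  have hlap : Lap μ m C φ := by
    rw [hφ]
    refine h p hp0 (lt_of_le_of_lt (Finset.sum_le_sum fun j _ => ?_) hqs)
    have := (hp1 j).trans (hq1 j)
    exact (lt_of_mul_lt_mul_left this hb.le).le
  have hφev : ∀ᶠ T in atTop, Lf m C φ - κ / 8 < ∫ y, Real.exp (lf φ y) ∂(μ T : Measure (Fin n → ℝ)) :=
    hlap.2.eventually (lt_mem_nhds (by unfold Lf; linarith))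
  filter_upwards [hup θ h0 h1 (κ / 2) (by positivity), hup ψ hψs.1 hψs.2 (κ / 8) (by positivity), hlap.1, hφev]
    with T a1 a2 a3 a4
  have hmid : ∫ y, Real.exp (lf φ y) ∂(μ T : Measure (Fin n → ℝ)) ≤
      (∫ y, Real.exp (lf θ y) ∂(μ T : Measure (Fin n → ℝ)) + ∫ y, Real.exp (lf ψ y) ∂(μ T : Measure (Fin n → ℝ))) / 2 := by
    rw [← integral_add a1.1 a2.1, ← integral_div]
    refine integral_mono a3 ((a1.1.add a2.1).div_const 2) fun y => ?_
    show Real.exp (lf φ y) ≤ (Real.exp (lf θ y) + Real.exp (lf ψ y)) / 2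
    have e1 : lf φ y = (lf θ y + lf ψ y) / 2 := by
      unfold lf
      rw [← Finset.sum_add_distrib, Finset.sum_div]
      refine Finset.sum_congr rfl fun j _ => ?_
      rw [hψ]; ring
    rw [e1]
    have h5 := convexOn_exp.2 (Set.mem_univ (lf θ y)) (Set.mem_univ (lf ψ y)) (show (0:ℝ) ≤ 1 / 2 by norm_num)
      (show (0:ℝ) ≤ 1 / 2 by norm_num) (by norm_num)
    simp only [smul_eq_mul] at h5
    have e2 : 1 / 2 * lf θ y + 1 / 2 * lf ψ y = (lf θ y + lf ψ y) / 2 := by ring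
    rw [e2] at h5
    linarith
  have e3 : Real.exp (lf θ m + qf C θ / 2) = Lf m C θ := rfl
  rw [Real.dist_eq, e3, abs_lt]
  have a5 := a1.2
  have a6 := a2.2
  constructor <;> linarith

end Pool.Agent.R313.SH
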