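import Pool.Agent.R313.SH.Ball

set_option autoImplicit false

/-! Laplace transforms known in an open simplex with corner zero. -/

namespace Pool.Agent.R313.SH

open MeasureTheory Filter Topology ProbabilityTheory BoundedContinuousFunction
open Pool.Agent.Y753.SHL

/-- unbounded test functions -/
lemma unb {E : Type*} [TopologicalSpace E] [MeasurableSpace E] [OpensMeasurableSpace E] {ι : Type*} {l : Filter ι}
    {ν : ι → ProbabilityMeasure E} {ρ : ProbabilityMeasure E} (hT : Tendsto ν l (𝓝 ρ)) {g : E → ℝ} (hg : Continuous g)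
    (hg0 : ∀ y, 0 ≤ g y) (hi : ∀ᶠ i in l, Integrable g (ν i : Measure E)) (hρ : Integrable g (ρ : Measure E))
    (hm : Tendsto (fun i => ∫ y, g y ∂(ν i : Measure E)) l (𝓝 (∫ y, g y ∂(ρ : Measure E))))
    (F : BoundedContinuousFunction E ℝ) :
    Tendsto (fun i => ∫ y, g y * F y ∂(ν i : Measure E)) l (𝓝 (∫ y, g y * F y ∂(ρ : Measure E))) := by
  -- truncations
  obtain ⟨gR, hgR⟩ : ∃ gR : ℕ → BoundedContinuousFunction E ℝ, ∀ k y, gR k y = min (g y) k :=
    ⟨fun k => BoundedContinuousFunction.ofNormedAddCommGroup (fun y => min (g y) k) (hg.min continuous_const) k (fun y => by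
      rw [Real.norm_eq_abs, abs_of_nonneg (le_min (hg0 y) (Nat.cast_nonneg k))]
      exact min_le_right _ _), fun k y => rfl⟩
  have hle : ∀ k y, gR k y ≤ g y := fun k y => by rw [hgR]; exact min_le_left _ _
  have hge : ∀ k y, 0 ≤ gR k y := fun k y => by rw [hgR]; exact le_min (hg0 y) (Nat.cast_nonneg k)
  have hnF : ∀ y, |F y| ≤ ‖F‖ := fun y => F.norm_coe_le_norm y
  have herr : ∀ (κ : ProbabilityMeasure E), Integrable g (κ : Measure E) → ∀ k,
      |∫ y, g y * F y ∂(κ : Measure E) - ∫ y, gR k y * F y ∂(κ : Measure E)| ≤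
        ‖F‖ * (∫ y, g y ∂(κ : Measure E) - ∫ y, gR k y ∂(κ : Measure E)) := by
    intro κ hκ k
    have i1 : Integrable (fun y => g y * F y) (κ : Measure E) :=
      hκ.mul_bdd (c := ‖F‖) F.continuous.aestronglyMeasurable (Eventually.of_forall fun y => F.norm_coe_le_norm y)
    have i2 : Integrable (fun y => gR k y) (κ : Measure E) := (gR k).integrable _
    have i3 : Integrable (fun y => gR k y * F y) (κ : Measure E) :=
      i2.mul_bdd (c := ‖F‖) F.continuous.aestronglyMeasurable (Eventually.of_forall fun y => F.norm_coe_le_norm y)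
    rw [← integral_sub i1 i3, ← integral_sub hκ i2, ← integral_const_mul]
    refine (abs_integral_le_integral_abs).trans (integral_mono (i1.sub i3).abs ((hκ.sub i2).const_mul _) fun y => ?_)
    show |g y * F y - gR k y * F y| ≤ ‖F‖ * (g y - gR k y)
    rw [← sub_mul, abs_mul, abs_of_nonneg (sub_nonneg.mpr (hle k y)), mul_comm]
    exact mul_le_mul_of_nonneg_right (hnF y) (sub_nonneg.mpr (hle k y))
  have hlim : Tendsto (fun k : ℕ => ∫ y, gR k y ∂(ρ : Measure E)) atTop (𝓝 (∫ y, g y ∂(ρ : Measure E))) := by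
    refine tendsto_integral_of_dominated_convergence (fun y => g y) (fun k => (gR k).continuous.aestronglyMeasurable) hρ
      (fun k => Eventually.of_forall fun y => ?_) (Eventually.of_forall fun y => ?_)
    · rw [Real.norm_eq_abs, abs_of_nonneg (hge k y)]
      exact hle k y
    · obtain ⟨K, hK⟩ := exists_nat_ge (g y)
      refine tendsto_const_nhds.congr' ?_
      filter_upwards [eventually_ge_atTop K] with k hk
      rw [hgR, min_eq_left]
      exact hK.trans (by exact_mod_cast hk)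
  have hF := ProbabilityMeasure.tendsto_iff_forall_integral_tendsto.mp hT
  have hN0 : 0 ≤ ‖F‖ := norm_nonneg _
  rw [Metric.tendsto_nhds]
  intro ε hε
  obtain ⟨k, hk⟩ : ∃ k : ℕ, ‖F‖ * (∫ y, g y ∂(ρ : Measure E) - ∫ y, gR k y ∂(ρ : Measure E)) < ε / 4 := by
    have h1 := ((tendsto_const_nhds (x := ∫ y, g y ∂(ρ : Measure E))).sub hlim).const_mul ‖F‖
    rw [sub_self, mul_zero] at h1
    exact (h1.eventually (gt_mem_nhds (by positivity))).exists
  have h2 := (hm.sub (hF (gR k))).const_mul ‖F‖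
  have h3 := h2.eventually (gt_mem_nhds hk)
  have h4 := (Metric.tendsto_nhds.mp (hF (gR k * F))) (ε / 4) (by positivity)
  filter_upwards [hi, h3, h4] with i a1 a2 a3
  rw [Real.dist_eq] at a3 ⊢
  simp only [BoundedContinuousFunction.coe_mul, Pi.mul_apply] at a3
  have b1 := herr (ν i) a1 k
  have b2 := herr ρ hρ k
  have b3 : ∫ y, g y * F y ∂(ν i : Measure E) - ∫ y, g y * F y ∂(ρ : Measure E) =
      (∫ y, g y * F y ∂(ν i : Measure E) - ∫ y, gR k y * F y ∂(ν i : Measure E)) +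
      (∫ y, gR k y * F y ∂(ν i : Measure E) - ∫ y, gR k y * F y ∂(ρ : Measure E)) -
      (∫ y, g y * F y ∂(ρ : Measure E) - ∫ y, gR k y * F y ∂(ρ : Measure E)) := by ring
  rw [b3]
  have c1 := abs_sub ((∫ y, g y * F y ∂(ν i : Measure E) - ∫ y, gR k y * F y ∂(ν i : Measure E)) +
      (∫ y, gR k y * F y ∂(ν i : Measure E) - ∫ y, gR k y * F y ∂(ρ : Measure E)))
      (∫ y, g y * F y ∂(ρ : Measure E) - ∫ y, gR k y * F y ∂(ρ : Measure E))
  have c2 := abs_add_le (∫ y, g y * F y ∂(ν i : Measure E) - ∫ y, gR k y * F y ∂(ν i : Measure E))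
      (∫ y, gR k y * F y ∂(ν i : Measure E) - ∫ y, gR k y * F y ∂(ρ : Measure E))
  linarith

variable {n : ℕ}

/-- the bilinear form -/
noncomputable def bl (C : Fin n → Fin n → ℝ) (c d : Fin n → ℝ) : ℝ := ∑ i, c i * ∑ k, C i k * d k

lemma bl_self (C : Fin n → Fin n → ℝ) (c : Fin n → ℝ) : bl C c c = qf C c := by
  unfold bl qf
  refine Finset.sum_congr rfl fun i _ => ?_
  rw [Finset.mul_sum]
  exact Finset.sum_congr rfl fun j _ => by ring

lemma bl_symm {C : Fin n → Fin n → ℝ} (hC : ∀ i j, C i j = C j i) (c d : Fin n → ℝ) : bl C c d = bl C d c := by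
  unfold bl
  simp_rw [Finset.mul_sum]
  rw [Finset.sum_comm]
  refine Finset.sum_congr rfl fun i _ => Finset.sum_congr rfl fun j _ => ?_
  rw [hC j i]; ring

lemma bl_add (C : Fin n → Fin n → ℝ) (c d e : Fin n → ℝ) : bl C (fun j => c j + d j) e = bl C c e + bl C d e := by
  unfold bl
  rw [← Finset.sum_add_distrib]
  exact Finset.sum_congr rfl fun i _ => by ring

lemma bl_smul (C : Fin n → Fin n → ℝ) (u : ℝ) (c e : Fin n → ℝ) : bl C (fun j => u * c j) e = u * bl C c e := by
  unfold bl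
  rw [Finset.mul_sum]
  exact Finset.sum_congr rfl fun i _ => by ring

lemma qf_add {C : Fin n → Fin n → ℝ} (hC : ∀ i j, C i j = C j i) (c d : Fin n → ℝ) :
    qf C (fun j => c j + d j) = qf C c + qf C d + 2 * bl C c d := by
  rw [← bl_self, bl_add, bl_symm hC c (fun j => c j + d j), bl_symm hC d (fun j => c j + d j), bl_add, bl_add, bl_self, bl_self,
    bl_symm hC d c]
  ring

/-- the Laplace transforms of a normal law -/
lemma nor_exp {m : Fin n → ℝ} {C : Fin n → Fin n → ℝ} {ρ : ProbabilityMeasure (Fin n → ℝ)} (h : Nor m C ρ) (c : Fin n → ℝ) :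
    Integrable (fun y => Real.exp (lf c y)) (ρ : Measure (Fin n → ℝ)) ∧
      ∫ y, Real.exp (lf c y) ∂(ρ : Measure (Fin n → ℝ)) = Real.exp (lf c m + qf C c / 2) := by
  obtain ⟨h0, h1⟩ := h c
  have hm : AEMeasurable (fun y : Fin n → ℝ => lf c y) (ρ : Measure (Fin n → ℝ)) := (lf_cont c).measurable.aemeasurable
  have h1' : (ρ : Measure (Fin n → ℝ)).map (fun y => lf c y) = gaussianReal (lf c m) (qf C c).toNNReal := h1
  constructor
  · have h2 : Integrable (fun x => Real.exp (1 * x)) ((ρ : Measure (Fin n → ℝ)).map (fun y => lf c y)) := by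
      rw [h1']; exact integrable_exp_mul_gaussianReal 1
    rw [integrable_map_measure (by fun_prop) hm] at h2
    refine h2.congr (Eventually.of_forall fun y => ?_)
    show Real.exp (1 * lf c y) = Real.exp (lf c y)
    rw [one_mul]
  · have h3 := congrFun (mgf_id_gaussianReal (μ := lf c m) (v := (qf C c).toNNReal)) 1
    simp only [mgf, id] at h3
    rw [← h1', integral_map hm (by fun_prop), Real.coe_toNNReal _ h0] at h3
    simp only [one_mul, one_pow, mul_one] at h3
    exact h3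

/-- job SHL-LAND -/
theorem land (n : ℕ) (μ : ℝ → ProbabilityMeasure (Fin n → ℝ)) (m : Fin n → ℝ) (C : Fin n → Fin n → ℝ) (b : ℝ)
    (hb : 0 < b) (hC : ∀ i j, C i j = C j i) (h : ∀ θ : Fin n → ℝ, (∀ j, 0 < θ j) → ∑ j, θ j < b → Lap μ m C θ) :
    ∃ ρ : ProbabilityMeasure (Fin n → ℝ), Nor m C ρ ∧ Tendsto μ atTop (𝓝 ρ) := by
  have hN : (0:ℝ) < (n:ℝ) + 1 := by positivity
  obtain ⟨t, ht⟩ : ∃ t : ℝ, t = b / (4 * ((n:ℝ) + 1)) := ⟨_, rfl⟩
  have ht0 : 0 < t := by rw [ht]; positivity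
  obtain ⟨θ0, hθ0⟩ : ∃ θ0 : Fin n → ℝ, ∀ j, θ0 j = 2 * t := ⟨fun _ => 2 * t, fun _ => rfl⟩
  have hbt : 4 * ((n:ℝ) + 1) * t = b := by rw [ht]; field_simp
  -- the Laplace transforms near the base point
  have hlap : ∀ η : Fin n → ℝ, (∀ j, |η j| < t) → Lap μ m C (fun j => θ0 j + η j) := by
    intro η hη
    refine h _ (fun j => ?_) ?_
    · have := (abs_lt.mp (hη j)).1
      rw [hθ0]; linarith
    · have h1 : ∑ j, (θ0 j + η j) ≤ ∑ _j : Fin n, 3 * t := by
        refine Finset.sum_le_sum fun j _ => ?_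
        have := (abs_lt.mp (hη j)).2
        rw [hθ0]; linarith
      rw [Finset.sum_const, Finset.card_univ, Fintype.card_fin, nsmul_eq_mul] at h1
      nlinarith
  have hlap0 : Lap μ m C θ0 := by
    have h1 := hlap (fun _ => 0) (fun j => by simpa using ht0)
    simpa using h1
  obtain ⟨L, hL⟩ : ∃ L : ℝ → ℝ, ∀ T, L T = ∫ y, Real.exp (lf θ0 y) ∂(μ T : Measure (Fin n → ℝ)) := ⟨_, fun _ => rfl⟩
  obtain ⟨Li, hLi⟩ : ∃ Li : ℝ, Li = Real.exp (lf θ0 m + qf C θ0 / 2) := ⟨_, rfl⟩
  have hLi0 : 0 < Li := by rw [hLi]; exact Real.exp_pos _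
  have hLT : Tendsto L atTop (𝓝 Li) := by
    have h1 := hlap0.2
    simp_rw [← hL, ← hLi] at h1
    exact h1
  have hLp : ∀ᶠ T in atTop, 0 < L T := hLT.eventually (lt_mem_nhds hLi0)
  -- the tilted measures
  obtain ⟨ν, hν⟩ : ∃ ν : ℝ → ProbabilityMeasure (Fin n → ℝ), ∀ᶠ T : ℝ in atTop,
      (ν T : Measure (Fin n → ℝ)) = (μ T : Measure (Fin n → ℝ)).tilted (lf θ0) := by
    have hex : ∀ T : ℝ, ∃ κ : ProbabilityMeasure (Fin n → ℝ), Integrable (fun y => Real.exp (lf θ0 y)) (μ T : Measure (Fin n → ℝ)) →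
        (κ : Measure (Fin n → ℝ)) = (μ T : Measure (Fin n → ℝ)).tilted (lf θ0) := by
      intro T
      by_cases hT : Integrable (fun y => Real.exp (lf θ0 y)) (μ T : Measure (Fin n → ℝ))
      · exact ⟨⟨(μ T : Measure (Fin n → ℝ)).tilted (lf θ0), isProbabilityMeasure_tilted hT⟩, fun _ => rfl⟩
      · exact ⟨μ T, fun h1 => absurd h1 hT⟩
    choose ν hν using hex
    exact ⟨ν, hlap0.1.mono fun T hT => hν T hT⟩
  have hint : ∀ᶠ T in atTop, ∀ g : (Fin n → ℝ) → ℝ, ∫ y, g y ∂(ν T : Measure (Fin n → ℝ)) =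
      (∫ y, Real.exp (lf θ0 y) * g y ∂(μ T : Measure (Fin n → ℝ))) / L T := by
    filter_upwards [hν] with T hT g
    rw [hT, integral_tilted, ← integral_div, hL]
    refine integral_congr_ae (Eventually.of_forall fun y => ?_)
    simp only [smul_eq_mul]
    ring
  have hible : ∀ᶠ T in atTop, ∀ g : (Fin n → ℝ) → ℝ, Integrable (fun y => Real.exp (lf θ0 y) * g y) (μ T : Measure (Fin n → ℝ)) →
      Integrable g (ν T : Measure (Fin n → ℝ)) := by
    filter_upwards [hν, hlap0.1] with T hT h1 g hg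
    rw [hT, integrable_tilted_iff h1]
    exact hg
  obtain ⟨m', hm'⟩ : ∃ m' : Fin n → ℝ, ∀ j, m' j = m j + ∑ k, C j k * θ0 k := ⟨_, fun _ => rfl⟩
  have hlm : ∀ c : Fin n → ℝ, lf c m' = lf c m + bl C c θ0 := by
    intro c
    unfold lf bl
    rw [← Finset.sum_add_distrib]
    exact Finset.sum_congr rfl fun j _ => by rw [hm']; ring
  have hνlap : ∀ η : Fin n → ℝ, (∀ j, |η j| < t) → Lap ν m' C η := by
    intro η hη
    obtain ⟨h1, h2⟩ := hlap η hη
    constructor
    · filter_upwards [h1, hible] with T a1 a2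
      refine a2 _ (a1.congr (Eventually.of_forall fun y => ?_))
      show Real.exp (lf (fun j => θ0 j + η j) y) = Real.exp (lf θ0 y) * Real.exp (lf η y)
      rw [lf_add, Real.exp_add]
    · have h3 := h2.div hLT hLi0.ne'
      have e1 : Real.exp (lf (fun j => θ0 j + η j) m + qf C (fun j => θ0 j + η j) / 2) / Li = Real.exp (lf η m' + qf C η / 2) := by
        rw [hLi, ← Real.exp_sub, hlm, lf_add, qf_add hC, bl_symm hC η θ0]
        congr 1
        ring
      rw [e1] at h3
      refine h3.congr' ?_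
      filter_upwards [hint] with T a1
      rw [a1]
      show (∫ y, Real.exp (lf (fun j => θ0 j + η j) y) ∂(μ T : Measure (Fin n → ℝ))) / L T = _
      congr 1
      refine integral_congr_ae (Eventually.of_forall fun y => ?_)
      show Real.exp (lf (fun j => θ0 j + η j) y) = Real.exp (lf θ0 y) * Real.exp (lf η y)
      rw [lf_add, Real.exp_add]
  obtain ⟨ρ', hρ', hνT⟩ := ball ht0 hC hνlap
  -- back
  obtain ⟨g, hg⟩ : ∃ g : (Fin n → ℝ) → ℝ, ∀ y, g y = Real.exp (-lf θ0 y) := ⟨_, fun _ => rfl⟩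
  have hgc : Continuous g := by
    have : g = fun y => Real.exp (-lf θ0 y) := funext hg
    rw [this]
    exact Real.continuous_exp.comp (lf_cont θ0).neg
  have hneg : ∀ y, -lf θ0 y = lf (fun j => (-1) * θ0 j) y := fun y => by rw [lf_smul]; ring
  obtain ⟨hgi, hgint⟩ := nor_exp hρ' (fun j => (-1) * θ0 j)
  have hgi' : Integrable g (ρ' : Measure (Fin n → ℝ)) := hgi.congr (Eventually.of_forall fun y => by
    show Real.exp (lf (fun j => (-1) * θ0 j) y) = g y
    rw [hg, hneg])
  have hgL : ∫ y, g y ∂(ρ' : Measure (Fin n → ℝ)) = Li⁻¹ := by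
    have e1 : ∫ y, g y ∂(ρ' : Measure (Fin n → ℝ)) = ∫ y, Real.exp (lf (fun j => (-1) * θ0 j) y) ∂(ρ' : Measure (Fin n → ℝ)) :=
      integral_congr_ae (Eventually.of_forall fun y => by
        show g y = Real.exp (lf (fun j => (-1) * θ0 j) y)
        rw [hg, hneg])
    rw [e1, hgint, hLi, ← Real.exp_neg, hlm, lf_smul, qf_smul, bl_smul, bl_self]
    congr 1
    ring
  have hgν : ∀ᶠ T in atTop, Integrable g (ν T : Measure (Fin n → ℝ)) := by
    filter_upwards [hible] with T a1
    refine a1 g ((integrable_const (1:ℝ)).congr (Eventually.of_forall fun y => ?_))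
    show (1:ℝ) = Real.exp (lf θ0 y) * g y
    rw [hg, ← Real.exp_add, add_neg_cancel, Real.exp_zero]
  have hback : ∀ᶠ T in atTop, ∀ F : (Fin n → ℝ) → ℝ, ∫ y, F y ∂(μ T : Measure (Fin n → ℝ)) =
      L T * ∫ y, g y * F y ∂(ν T : Measure (Fin n → ℝ)) := by
    filter_upwards [hint, hLp] with T a1 a2 F
    rw [a1, mul_div_cancel₀ _ a2.ne']
    refine integral_congr_ae (Eventually.of_forall fun y => ?_)
    show F y = Real.exp (lf θ0 y) * (g y * F y)
    rw [hg, ← mul_assoc, ← Real.exp_add, add_neg_cancel, Real.exp_zero, one_mul]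
  have hgm : Tendsto (fun T => ∫ y, g y ∂(ν T : Measure (Fin n → ℝ))) atTop (𝓝 (∫ y, g y ∂(ρ' : Measure (Fin n → ℝ)))) := by
    rw [hgL]
    refine (hLT.inv₀ hLi0.ne').congr' ?_
    filter_upwards [hback, hLp] with T a1 a2
    have a3 := a1 (fun _ => 1)
    rw [integral_const, probReal_univ, one_smul] at a3
    simp_rw [mul_one] at a3
    exact (eq_inv_of_mul_eq_one_right a3.symm).symm
  have hlimF : ∀ F : BoundedContinuousFunction (Fin n → ℝ) ℝ, Tendsto (fun T => ∫ y, F y ∂(μ T : Measure (Fin n → ℝ))) atTop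
      (𝓝 (Li * ∫ y, g y * F y ∂(ρ' : Measure (Fin n → ℝ)))) := by
    intro F
    have h1 := unb hνT hgc (fun y => by rw [hg]; exact (Real.exp_pos _).le) hgν hgi' hgm F
    refine (hLT.mul h1).congr' ?_
    filter_upwards [hback] with T a1
    rw [a1]
  have hgi2 : Integrable (fun y => Real.exp (-lf θ0 y)) (ρ' : Measure (Fin n → ℝ)) := by
    simp_rw [← hg]; exact hgi'
  obtain ⟨ρ, hρ⟩ : ∃ ρ : ProbabilityMeasure (Fin n → ℝ), (ρ : Measure (Fin n → ℝ)) =
      (ρ' : Measure (Fin n → ℝ)).tilted (fun y => -lf θ0 y) :=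
    ⟨⟨(ρ' : Measure (Fin n → ℝ)).tilted (fun y => -lf θ0 y), isProbabilityMeasure_tilted hgi2⟩, rfl⟩
  have hρint : ∀ F : (Fin n → ℝ) → ℝ, ∫ y, F y ∂(ρ : Measure (Fin n → ℝ)) = Li * ∫ y, g y * F y ∂(ρ' : Measure (Fin n → ℝ)) := by
    intro F
    rw [hρ, integral_tilted, ← integral_const_mul]
    simp_rw [← hg]
    rw [hgL]
    refine integral_congr_ae (Eventually.of_forall fun y => ?_)
    simp only [smul_eq_mul, div_inv_eq_mul]
    ring
  refine ⟨ρ, fun c => ⟨(hρ' c).1, ?_⟩, ?_⟩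
  · have hm : AEMeasurable (lf c) (ρ : Measure (Fin n → ℝ)) := (lf_cont c).measurable.aemeasurable
    have : IsProbabilityMeasure ((ρ : Measure (Fin n → ℝ)).map (lf c)) := Measure.isProbabilityMeasure_map hm
    have hsum : ∀ (u : ℝ) (y : Fin n → ℝ), g y * Real.exp (u * lf c y) = Real.exp (lf (fun j => (-1) * θ0 j + u * c j) y) := by
      intro u y
      rw [lf_add (fun j => (-1) * θ0 j) (fun j => u * c j), lf_smul, lf_smul, hg, ← Real.exp_add]
      congr 1; ring
    refine ext_near (r := 1) one_pos (fun u _ => ?_) (fun u _ => integrable_exp_mul_gaussianReal u) (fun u _ => ?_)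
    · rw [integrable_map_measure (by fun_prop) hm]
      show Integrable (fun y => Real.exp (u * lf c y)) (ρ : Measure (Fin n → ℝ))
      rw [hρ, integrable_tilted_iff hgi2]
      refine (nor_exp hρ' (fun j => (-1) * θ0 j + u * c j)).1.congr (Eventually.of_forall fun y => ?_)
      show Real.exp (lf (fun j => (-1) * θ0 j + u * c j) y) = Real.exp (-lf θ0 y) * Real.exp (u * lf c y)
      rw [← hg, hsum]
    · have h3 := congrFun (mgf_id_gaussianReal (μ := lf c m) (v := (qf C c).toNNReal)) u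
      simp only [mgf, id] at h3
      rw [h3, integral_map hm (by fun_prop), hρint]
      simp_rw [hsum]
      rw [(nor_exp hρ' (fun j => (-1) * θ0 j + u * c j)).2, hLi, ← Real.exp_add, Real.coe_toNNReal _ (hρ' c).1]
      congr 1
      rw [hlm, lf_add (fun j => (-1) * θ0 j) (fun j => u * c j), qf_add hC (fun j => (-1) * θ0 j) (fun j => u * c j),
        bl_add C (fun j => (-1) * θ0 j) (fun j => u * c j), bl_smul, bl_smul, bl_smul, bl_self, lf_smul, lf_smul, qf_smul, qf_smul,
        bl_symm hC θ0 (fun j => u * c j), bl_smul]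
      ring
  · rw [ProbabilityMeasure.tendsto_iff_forall_integral_tendsto]
    intro F
    rw [hρint]
    exact hlimF F

end Pool.Agent.R313.SH
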